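import Pool.Agent.P.MP_d07120_nt.Perron

/-!
Finiteness of the separated reduced states in a cubic field.
-/

set_option autoImplicit false

namespace Pool.Agent.P.MP_d07120_nt

open Filter

section
variable {K : Type} [Field K] [NumberField K]

/-- the three embeddings of a cubic field -/
structure Emb (σ : K →+* ℝ) (τ₁ τ₂ : K →+* ℂ) : Prop where
  rk : Module.finrank ℚ K = 3
  n12 : τ₁ ≠ τ₂
  n1 : τ₁ ≠ Complex.ofRealHom.comp σ
  n2 : τ₂ ≠ Complex.ofRealHom.comp σ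

variable {σ : K →+* ℝ} {τ₁ τ₂ : K →+* ℂ}

theorem Emb.univ_eq (h : Emb σ τ₁ τ₂) [DecidableEq (K →+* ℂ)] :
    (Finset.univ : Finset (K →+* ℂ)) = {Complex.ofRealHom.comp σ, τ₁, τ₂} := by
  symm
  apply Finset.eq_univ_of_card
  rw [NumberField.Embeddings.card, h.rk]
  exact Finset.card_eq_three.2 ⟨_, _, _, h.n1.symm, h.n2.symm, h.n12, rfl⟩

theorem Emb.cases (h : Emb σ τ₁ τ₂) (φ : K →+* ℂ) :
    φ = Complex.ofRealHom.comp σ ∨ φ = τ₁ ∨ φ = τ₂ := by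
  classical
  have := Finset.mem_univ φ
  rw [h.univ_eq] at this
  simpa using this

theorem Emb.norm (h : Emb σ τ₁ τ₂) {x : K} (hx : IsIntegral ℤ x) (h0 : x ≠ 0) :
    ∃ n : ℤ, n ≠ 0 ∧ (n : ℂ) = (σ x : ℂ) * τ₁ x * τ₂ x := by
  classical
  obtain ⟨n, hn⟩ := IsIntegrallyClosed.isIntegral_iff.1 (Algebra.isIntegral_norm ℚ hx)
  have e := Algebra.norm_eq_prod_embeddings ℚ ℂ x
  rw [← Fintype.prod_equiv (RingHom.equivRatAlgHom K ℂ) (fun f => f x) (fun φ => φ x)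
    (fun _ => by simp [RingHom.equivRatAlgHom_apply]), h.univ_eq,
    Finset.prod_insert (by simp [h.n1.symm, h.n2.symm]), Finset.prod_pair h.n12, ← hn] at e
  have e' : (n : ℂ) = (σ x : ℂ) * τ₁ x * τ₂ x := by
    rw [mul_assoc]
    simpa using e
  refine ⟨n, ?_, e'⟩
  rintro rfl
  have h1 : (σ x : ℂ) ≠ 0 := by simpa using h0
  have h2 : τ₁ x ≠ 0 := by simpa using h0
  have h3 : τ₂ x ≠ 0 := by simpa using h0
  exact mul_ne_zero (mul_ne_zero h1 h2) h3 (by simpa using e'.symm)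

/-- pairs with bounded denominator and bounded conjugates -/
def Small (K : Type) [Field K] (R : ℝ) : Set (K × K) :=
  {q | ∃ n : ℤ, n ≠ 0 ∧ |(n : ℝ)| ≤ R ∧
    (IsIntegral ℤ ((n : K) * q.1) ∧ ∀ φ : K →+* ℂ, ‖φ ((n : K) * q.1)‖ ≤ R) ∧
    (IsIntegral ℤ ((n : K) * q.2) ∧ ∀ φ : K →+* ℂ, ‖φ ((n : K) * q.2)‖ ≤ R)}

theorem small_finite (K : Type) [Field K] [NumberField K] (R : ℝ) : (Small K R).Finite := by
  have hF := NumberField.Embeddings.finite_of_norm_le K ℂ R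
  have hI : (Set.Icc (-⌈R⌉) ⌈R⌉).Finite := Set.finite_Icc _ _
  refine ((hI.prod (hF.prod hF)).image
    fun p : ℤ × K × K => (p.2.1 / (p.1 : K), p.2.2 / (p.1 : K))).subset ?_
  rintro q ⟨n, hn, hR, h1, h2⟩
  have hn' : (n : K) ≠ 0 := by exact_mod_cast hn
  refine ⟨(n, (n : K) * q.1, (n : K) * q.2), ⟨?_, h1, h2⟩, ?_⟩
  · have h3 : ((|n| : ℤ) : ℝ) ≤ (⌈R⌉ : ℤ) := by
      push_cast
      exact hR.trans (Int.le_ceil R)
    have h4 : |n| ≤ ⌈R⌉ := by exact_mod_cast h3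
    exact abs_le.1 h4
  · ext
    · simp only; field_simp
    · simp only; field_simp

theorem arith {N B ε s Y Y' Z Z' D E W : ℝ} (hN : 1 ≤ N) (hB : 0 ≤ B) (hε : 0 < ε) (s1 : s ≤ 1)
    (Y0 : 0 ≤ Y) (Y0' : 0 ≤ Y') (Z0 : 0 ≤ Z) (E0 : 0 ≤ E) (hD : N * D ≤ B) (hE : N * E ≤ B)
    (hW : N * W ≤ B) (sep : ε * Y' ≤ D) (tY : Y ≤ Y' + D) (tZ : Z' ≤ Z + E)
    (hZ : Z * D ≤ W + Y * E) (h1 : 1 ≤ N * s * Y * Y') :
    N ≤ (B / ε + B) ^ 2 ∧ N * Y ≤ B / ε + B ∧ N * Y' ≤ B / ε + B ∧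
      N * Z ≤ (B + (B / ε + B) * B) * (B / ε + B) / ε ∧
      N * Z' ≤ (B + (B / ε + B) * B) * (B / ε + B) / ε + B := by
  have N0 : 0 ≤ N := by linarith
  have a1 : N * Y' ≤ B / ε := by
    rw [le_div_iff₀ hε]
    nlinarith [mul_le_mul_of_nonneg_left sep N0]
  set B1 := B / ε + B with hB1
  have a0 : 0 ≤ B / ε := by positivity
  have B10 : 0 ≤ B1 := by positivity
  have a2 : N * Y' ≤ B1 := by linarith
  have a3 : N * Y ≤ B1 := by nlinarith [mul_le_mul_of_nonneg_left tY N0]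
  have a4 : 1 ≤ N * Y * Y' := by
    have := mul_nonneg (mul_nonneg N0 Y0) Y0'
    nlinarith
  have a5 : N ≤ B1 ^ 2 := by
    have h2 := mul_le_mul a3 a2 (mul_nonneg N0 Y0') B10
    nlinarith
  have a6 : 1 ≤ B1 * Y' := a4.trans (mul_le_mul_of_nonneg_right a3 Y0')
  have a7 : ε ≤ B1 * D := by
    nlinarith [mul_le_mul_of_nonneg_left sep B10, mul_le_mul_of_nonneg_left a6 hε.le]
  have a8 : Y ≤ B1 := by nlinarith
  have a9 : N * Z * D ≤ B + B1 * B := by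
    have h2 := mul_le_mul_of_nonneg_left hZ N0
    have h3 := mul_le_mul a8 hE (mul_nonneg N0 E0) B10
    nlinarith
  have a10 : N * Z ≤ (B + B1 * B) * B1 / ε := by
    rw [le_div_iff₀ hε]
    have h2 := mul_le_mul_of_nonneg_left a7 (mul_nonneg N0 Z0)
    have h3 := mul_le_mul_of_nonneg_right a9 B10
    nlinarith
  refine ⟨a5, a3, a2, a10, ?_⟩
  nlinarith [mul_le_mul_of_nonneg_left tZ N0]

/-- the bound for separated reduced states -/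
noncomputable def Rad (B ε : ℝ) : ℝ :=
  (B / ε + B) ^ 2 + (B / ε + B) + ((B + (B / ε + B) * B) * (B / ε + B) / ε + B)

theorem Emb.small (h : Emb σ τ₁ τ₂) {x y z : K} {B ε : ℝ} (hB : 0 ≤ B) (hε : 0 < ε)
    (i0 : IsIntegral ℤ x) (i1 : IsIntegral ℤ (x * y)) (i2 : IsIntegral ℤ (x * z))
    (x0 : 0 < σ x) (y0 : 0 < σ y) (y1 : σ y ≤ 1) (z0 : 0 ≤ σ z) (z1 : σ z ≤ 1)
    (w0 : ‖τ₁ (x * y) * τ₂ (x * z) - τ₁ (x * z) * τ₂ (x * y)‖ * σ x ≤ B)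
    (w1 : ‖τ₁ (x * z) * τ₂ x - τ₁ x * τ₂ (x * z)‖ * σ x ≤ B)
    (w2 : ‖τ₁ x * τ₂ (x * y) - τ₁ (x * y) * τ₂ x‖ * σ x ≤ B)
    (sep : ε ≤ ‖τ₁ y / τ₂ y - 1‖) : (y, z) ∈ Small K (Rad B ε) := by
  have hx : x ≠ 0 := by rintro rfl; simp at x0
  have hy : y ≠ 0 := by rintro rfl; simp at y0
  obtain ⟨n, hn, en⟩ := h.norm i0 hx
  obtain ⟨m, hm, em⟩ := h.norm i1 (mul_ne_zero hx hy)
  have hY' : τ₂ y ≠ 0 := by simpa using hy
  have nn : |(n : ℝ)| = σ x * ‖τ₁ x‖ * ‖τ₂ x‖ := by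
    have := congrArg (fun w : ℂ => ‖w‖) en
    simpa [abs_of_pos x0] using this
  have mm : |(m : ℝ)| = |(n : ℝ)| * σ y * ‖τ₁ y‖ * ‖τ₂ y‖ := by
    have := congrArg (fun w : ℂ => ‖w‖) em
    rw [nn]
    simp only [Complex.norm_intCast, map_mul, norm_mul, Complex.ofReal_mul, Complex.norm_real,
      Real.norm_eq_abs, abs_of_pos x0, abs_of_pos y0] at this
    rw [this]
    ring
  have one : ∀ k : ℤ, k ≠ 0 → (1 : ℝ) ≤ |(k : ℝ)| := fun k hk => by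
    have : (1 : ℤ) ≤ |k| := Int.one_le_abs hk
    exact_mod_cast this
  have conv : ∀ u v : ℂ, u = τ₁ x * τ₂ x * v → ‖u‖ * σ x ≤ B → |(n : ℝ)| * ‖v‖ ≤ B := by
    intro u v e hu
    rw [e, norm_mul, norm_mul] at hu
    rw [nn]
    linarith
  have k0 := conv _ (τ₁ y * τ₂ z - τ₁ z * τ₂ y) (by simp only [map_mul]; ring) w0
  have k1 := conv _ (τ₁ z - τ₂ z) (by simp only [map_mul]; ring) w1
  have k2 := conv _ (τ₂ y - τ₁ y) (by simp only [map_mul]; ring) w2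
  have s1 : ε * ‖τ₂ y‖ ≤ ‖τ₂ y - τ₁ y‖ := by
    have e : τ₂ y - τ₁ y = -((τ₁ y / τ₂ y - 1) * τ₂ y) := by field_simp; ring
    rw [e, norm_neg, norm_mul]
    exact mul_le_mul_of_nonneg_right sep (norm_nonneg _)
  have s2 : ‖τ₁ y‖ ≤ ‖τ₂ y‖ + ‖τ₂ y - τ₁ y‖ := by
    have := norm_sub_le (τ₂ y) (τ₂ y - τ₁ y)
    rwa [sub_sub_cancel] at this
  have s3 : ‖τ₂ z‖ ≤ ‖τ₁ z‖ + ‖τ₁ z - τ₂ z‖ := by
    have := norm_sub_le (τ₁ z) (τ₁ z - τ₂ z)
    rwa [sub_sub_cancel] at this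
  have s4 : ‖τ₁ z‖ * ‖τ₂ y - τ₁ y‖ ≤ ‖τ₁ y * τ₂ z - τ₁ z * τ₂ y‖ + ‖τ₁ y‖ * ‖τ₁ z - τ₂ z‖ := by
    have e : τ₁ z * (τ₂ y - τ₁ y) = -((τ₁ y * τ₂ z - τ₁ z * τ₂ y) + τ₁ y * (τ₁ z - τ₂ z)) := by
      ring
    rw [← norm_mul, ← norm_mul, e, norm_neg]
    exact norm_add_le _ _
  obtain ⟨b1, b2, b3, b4, b5⟩ := arith (one n hn) hB hε y1 (norm_nonneg _) (norm_nonneg _)
    (norm_nonneg _) (norm_nonneg _) k2 k1 k0 s1 s2 s3 s4 (by rw [← mm]; exact one m hm)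
  have p1 : 0 ≤ B / ε + B := by positivity
  have p2 : 0 ≤ (B + (B / ε + B) * B) * (B / ε + B) / ε := by positivity
  have p3 := sq_nonneg (B / ε + B)
  have n0 := abs_nonneg (n : ℝ)
  have iu : IsIntegral ℤ ((n : K) / x) := by
    have hσ : (σ x : ℂ) ≠ 0 := by exact_mod_cast x0.ne'
    have e : (Complex.ofRealHom.comp σ).toIntAlgHom ((n : K) / x) = τ₁ x * τ₂ x := by
      simp only [RingHom.toIntAlgHom_apply, RingHom.comp_apply, map_div₀, map_intCast,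
        Complex.ofRealHom_eq_coe, en]
      field_simp
    rw [← isIntegral_algHom_iff (Complex.ofRealHom.comp σ).toIntAlgHom
      (Complex.ofRealHom.comp σ).injective, e]
    exact (i0.map τ₁.toIntAlgHom).mul (i0.map τ₂.toIntAlgHom)
  have main : ∀ v : K, IsIntegral ℤ (x * v) → 0 ≤ σ v → σ v ≤ 1 →
      |(n : ℝ)| * ‖τ₁ v‖ ≤ Rad B ε → |(n : ℝ)| * ‖τ₂ v‖ ≤ Rad B ε →
      IsIntegral ℤ ((n : K) * v) ∧ ∀ φ : K →+* ℂ, ‖φ ((n : K) * v)‖ ≤ Rad B ε := by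
    intro v iv v0 v1 t1 t2
    constructor
    · have e : (n : K) * v = (n : K) / x * (x * v) := by field_simp
      rw [e]
      exact iu.mul iv
    · intro φ
      rw [map_mul, map_intCast, norm_mul, Complex.norm_intCast]
      rcases h.cases φ with rfl | rfl | rfl
      · simp only [RingHom.comp_apply, Complex.ofRealHom_eq_coe, Complex.norm_real,
          Real.norm_eq_abs, abs_of_nonneg v0]
        unfold Rad
        nlinarith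
      · exact t1
      · exact t2
  refine ⟨n, hn, by unfold Rad; linarith, main y i1 y0.le y1 ?_ ?_, main z i2 z0 z1 ?_ ?_⟩ <;>
    unfold Rad <;> linarith

end

end Pool.Agent.P.MP_d07120_nt
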