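import Mathlib

/-!
Perron's convergence estimate for the dual recurrence of the Jacobi-Perron algorithm.
-/

set_option autoImplicit false

namespace Pool.Agent.P.MP_d07120_nt

open Filter

/-- solutions of the dual recurrence -/
structure Sol {R : Type} [Ring R] (a b u0 u1 u2 : ℕ → R) : Prop where
  e0 : ∀ n, u0 (n + 1) = a n * u0 n + u1 n + b n * u2 n
  e1 : ∀ n, u1 (n + 1) = u2 n
  e2 : ∀ n, u2 (n + 1) = u0 n

/-- admissible digits -/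
structure Dig (a b : ℕ → ℝ) : Prop where
  a1 : ∀ n, 1 ≤ a n
  b0 : ∀ n, 0 ≤ b n
  ba : ∀ n, b n ≤ a n

/-- the positive solution -/
noncomputable def Q (a b : ℕ → ℝ) : ℕ → ℝ × ℝ × ℝ
  | 0 => (1, 1, 1)
  | n + 1 => (a n * (Q a b n).1 + (Q a b n).2.1 + b n * (Q a b n).2.2, (Q a b n).2.2, (Q a b n).1)

theorem Q_sol (a b : ℕ → ℝ) :
    Sol a b (fun n => (Q a b n).1) (fun n => (Q a b n).2.1) (fun n => (Q a b n).2.2) :=
  ⟨fun _ => rfl, fun _ => rfl, fun _ => rfl⟩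

theorem Q_pos {a b : ℕ → ℝ} (h : Dig a b) (n : ℕ) :
    0 < (Q a b n).2.1 ∧ (Q a b n).2.1 ≤ (Q a b n).2.2 ∧ (Q a b n).2.2 ≤ (Q a b n).1 := by
  induction n with
  | zero => simp [Q]
  | succ n ih =>
    obtain ⟨h1, h2, h3⟩ := ih
    have := h.a1 n
    have := h.b0 n
    refine ⟨by simp only [Q]; linarith, by simp only [Q]; linarith, ?_⟩
    simp only [Q]
    nlinarith [mul_nonneg (h.b0 n) (h1.le.trans h2)]

theorem Sol.lin {a b u0 u1 u2 v0 v1 v2 : ℕ → ℝ} (hu : Sol a b u0 u1 u2) (hv : Sol a b v0 v1 v2)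
    (s t : ℝ) : Sol a b (fun n => s * u0 n + t * v0 n) (fun n => s * u1 n + t * v1 n)
      (fun n => s * u2 n + t * v2 n) :=
  ⟨fun n => by simp only [hu.e0, hv.e0]; ring, fun n => by simp only [hu.e1, hv.e1],
    fun n => by simp only [hu.e2, hv.e2]⟩

theorem Sol.nonneg {a b u0 u1 u2 : ℕ → ℝ} (h : Dig a b) (hu : Sol a b u0 u1 u2) {n : ℕ}
    (h0 : 0 ≤ u0 n ∧ 0 ≤ u1 n ∧ 0 ≤ u2 n) {m : ℕ} (hm : n ≤ m) :
    0 ≤ u0 m ∧ 0 ≤ u1 m ∧ 0 ≤ u2 m := by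
  induction m, hm using Nat.le_induction with
  | base => exact h0
  | succ m _ ih =>
    obtain ⟨h1, h2, h3⟩ := ih
    rw [hu.e0, hu.e1, hu.e2]
    have := mul_nonneg (zero_le_one.trans (h.a1 m)) h1
    have := mul_nonneg (h.b0 m) h3
    exact ⟨by linarith, h3, h1⟩

theorem Sol.one {a b u0 u1 u2 : ℕ → ℝ} (h : Dig a b) (hu : Sol a b u0 u1 u2) {n : ℕ}
    (h0 : 0 ≤ u0 n ∧ 0 ≤ u1 n ∧ 0 ≤ u2 n) {κ : ℝ} (hκ : 0 ≤ κ) (h1 : κ * (Q a b n).1 ≤ u0 n) :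
    κ / 3 * (Q a b (n + 1)).1 ≤ u0 (n + 1) := by
  obtain ⟨q1, q2, q3⟩ := Q_pos h n
  have a1 := h.a1 n
  have e : (Q a b (n + 1)).1 ≤ 3 * (a n * (Q a b n).1) := by
    simp only [Q]
    have := mul_le_mul (h.ba n) q3 (q1.le.trans q2) (by linarith)
    nlinarith
  have e2 := mul_le_mul_of_nonneg_left e (by positivity : 0 ≤ κ / 3)
  have e3 := mul_le_mul_of_nonneg_left h1 (by linarith : 0 ≤ a n)
  have := mul_nonneg (h.b0 n) h0.2.2
  rw [hu.e0]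
  nlinarith [h0.2.1]

theorem Sol.two {a b u0 u1 u2 : ℕ → ℝ} (h : Dig a b) (hu : Sol a b u0 u1 u2) {n : ℕ}
    (h0 : 0 ≤ u0 n ∧ 0 ≤ u1 n ∧ 0 ≤ u2 n) {κ : ℝ} (hκ : 0 ≤ κ) (h1 : κ * (Q a b n).1 ≤ u0 n) :
    κ / 9 * (Q a b (n + 2)).1 ≤ u0 (n + 2) ∧ κ / 9 * (Q a b (n + 2)).2.1 ≤ u1 (n + 2) ∧
      κ / 9 * (Q a b (n + 2)).2.2 ≤ u2 (n + 2) := by
  have s1 := hu.one h h0 hκ h1
  have s2 := hu.one h (hu.nonneg h h0 (Nat.le_succ n)) (by positivity) s1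
  obtain ⟨q1, q2, q3⟩ := Q_pos h n
  obtain ⟨r1, r2, r3⟩ := Q_pos h (n + 1)
  refine ⟨by rw [show κ / 9 = κ / 3 / 3 by ring]; exact s2, ?_, ?_⟩
  · rw [hu.e1, hu.e2]
    have e : (Q a b (n + 2)).2.1 = (Q a b n).1 := rfl
    rw [e]
    nlinarith [mul_nonneg hκ (q1.le.trans (q2.trans q3))]
  · rw [hu.e2]
    have e : (Q a b (n + 2)).2.2 = (Q a b (n + 1)).1 := rfl
    rw [e]
    nlinarith [mul_nonneg hκ (r1.le.trans (r2.trans r3))]

/-- two-sided bounds by multiples of the positive solution -/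
def Btw (a b u0 u1 u2 : ℕ → ℝ) (n : ℕ) (m M : ℝ) : Prop :=
  (m * (Q a b n).1 ≤ u0 n ∧ m * (Q a b n).2.1 ≤ u1 n ∧ m * (Q a b n).2.2 ≤ u2 n) ∧
    (u0 n ≤ M * (Q a b n).1 ∧ u1 n ≤ M * (Q a b n).2.1 ∧ u2 n ≤ M * (Q a b n).2.2)

theorem Btw.later {a b u0 u1 u2 : ℕ → ℝ} (h : Dig a b) (hu : Sol a b u0 u1 u2) {n : ℕ} {m M : ℝ}
    (hb : Btw a b u0 u1 u2 n m M) {k : ℕ} (hk : n ≤ k) : Btw a b u0 u1 u2 k m M := by
  obtain ⟨⟨p0, p1, p2⟩, p3, p4, p5⟩ := hb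
  have s1 := (hu.lin (Q_sol a b) 1 (-m)).nonneg h (n := n)
    ⟨by linarith, by linarith, by linarith⟩ hk
  have s2 := (hu.lin (Q_sol a b) (-1) M).nonneg h (n := n)
    ⟨by linarith, by linarith, by linarith⟩ hk
  obtain ⟨t0, t1, t2⟩ := s1
  obtain ⟨t3, t4, t5⟩ := s2
  exact ⟨⟨by linarith, by linarith, by linarith⟩, by linarith, by linarith, by linarith⟩

theorem Btw.shrink {a b u0 u1 u2 : ℕ → ℝ} (h : Dig a b) (hu : Sol a b u0 u1 u2) {n : ℕ} {m M : ℝ}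
    (hb : Btw a b u0 u1 u2 n m M) :
    ∃ m' M', M' - m' = 8 / 9 * (M - m) ∧ Btw a b u0 u1 u2 (n + 2) m' M' := by
  obtain ⟨⟨p0, p1, p2⟩, p3, p4, p5⟩ := hb
  obtain ⟨q1, q2, q3⟩ := Q_pos h n
  have q0 : 0 < (Q a b n).1 := q1.trans_le (q2.trans q3)
  set ρ := u0 n / (Q a b n).1 with hρ
  have e : ρ * (Q a b n).1 = u0 n := div_mul_cancel₀ _ q0.ne'
  have r1 : m ≤ ρ := by rw [hρ, le_div_iff₀ q0]; exact p0
  have r2 : ρ ≤ M := by rw [hρ, div_le_iff₀ q0]; exact p3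
  obtain ⟨t0, t1, t2⟩ := (hu.lin (Q_sol a b) 1 (-m)).two h (n := n)
    ⟨by linarith, by linarith, by linarith⟩ (κ := ρ - m) (by linarith) (by linarith)
  obtain ⟨t3, t4, t5⟩ := (hu.lin (Q_sol a b) (-1) M).two h (n := n)
    ⟨by linarith, by linarith, by linarith⟩ (κ := M - ρ) (by linarith) (by linarith)
  exact ⟨m + (ρ - m) / 9, M - (M - ρ) / 9, by ring,
    ⟨by linarith, by linarith, by linarith⟩, by linarith, by linarith, by linarith⟩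

theorem exists_btw {a b u0 u1 u2 : ℕ → ℝ} (h : Dig a b) (hu : Sol a b u0 u1 u2) {δ : ℝ}
    (hδ : 0 < δ) : ∃ n m M, M - m ≤ δ ∧ Btw a b u0 u1 u2 n m M := by
  set D := |u0 0| + |u1 0| + |u2 0| with hD
  have key : ∀ j : ℕ, ∃ m M, M - m = (8 / 9) ^ j * (2 * D) ∧ Btw a b u0 u1 u2 (2 * j) m M := by
    intro j
    induction j with
    | zero =>
      refine ⟨-D, D, by ring, ?_⟩
      have a0 := abs_nonneg (u0 0)
      have a1 := abs_nonneg (u1 0)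
      have a2 := abs_nonneg (u2 0)
      have b0 := le_abs_self (u0 0)
      have b1 := le_abs_self (u1 0)
      have b2 := le_abs_self (u2 0)
      have c0 := neg_abs_le (u0 0)
      have c1 := neg_abs_le (u1 0)
      have c2 := neg_abs_le (u2 0)
      simp only [Btw, Q, mul_zero, mul_one]
      exact ⟨⟨by linarith, by linarith, by linarith⟩, by linarith, by linarith, by linarith⟩
    | succ j ih =>
      obtain ⟨m, M, e, hb⟩ := ih
      obtain ⟨m', M', e', hb'⟩ := hb.shrink h hu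
      exact ⟨m', M', by rw [e', e]; ring, hb'⟩
  have t : Tendsto (fun j : ℕ => (8 / 9 : ℝ) ^ j * (2 * D)) atTop (nhds (0 * (2 * D))) :=
    (tendsto_pow_atTop_nhds_zero_of_lt_one (by norm_num) (by norm_num)).mul_const _
  rw [zero_mul] at t
  obtain ⟨j, hj⟩ := (t.eventually (ge_mem_nhds hδ)).exists
  obtain ⟨m, M, e, hb⟩ := key j
  exact ⟨2 * j, m, M, by rw [e]; exact hj, hb⟩

/-- the orbit of the algorithm, as a positive vector -/
structure Orb (a b x0 x1 x2 : ℕ → ℝ) : Prop where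
  p0 : ∀ n, 0 < x0 n
  p1 : ∀ n, 0 ≤ x1 n
  p2 : ∀ n, 0 ≤ x2 n
  e0 : ∀ n, x0 (n + 1) = x1 n
  e1 : ∀ n, x1 (n + 1) = x2 n - b n * x1 n
  e2 : ∀ n, x2 (n + 1) = x0 n - a n * x1 n

theorem Orb.pair {a b x0 x1 x2 u0 u1 u2 : ℕ → ℝ} (hx : Orb a b x0 x1 x2) (hu : Sol a b u0 u1 u2)
    (n : ℕ) : u0 n * x0 n + u1 n * x1 n + u2 n * x2 n = u0 0 * x0 0 + u1 0 * x1 0 + u2 0 * x2 0 := by
  induction n with
  | zero => rfl
  | succ n ih =>
    rw [← ih, hu.e0, hu.e1, hu.e2, hx.e0, hx.e1, hx.e2]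
    ring

/-- the main estimate: the dual vector is eventually bounded in terms of the pairing only -/
theorem bound {a b x0 x1 x2 u0 u1 u2 : ℕ → ℝ} (h : Dig a b) (hx : Orb a b x0 x1 x2)
    (hu : Sol a b u0 u1 u2) : ∀ᶠ n in atTop,
      |u0 n| * x0 n ≤ |u0 0 * x0 0 + u1 0 * x1 0 + u2 0 * x2 0| + 1 ∧
      |u1 n| * x0 n ≤ |u0 0 * x0 0 + u1 0 * x1 0 + u2 0 * x2 0| + 1 ∧
      |u2 n| * x0 n ≤ |u0 0 * x0 0 + u1 0 * x1 0 + u2 0 * x2 0| + 1 := by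
  set c := u0 0 * x0 0 + u1 0 * x1 0 + u2 0 * x2 0 with hc
  set C := x0 0 + x1 0 + x2 0 with hC
  have C0 : 0 < C := by
    have := hx.p0 0
    have := hx.p1 0
    have := hx.p2 0
    linarith
  obtain ⟨N, m, M, hmM, hb⟩ := exists_btw h hu (one_div_pos.2 C0)
  filter_upwards [eventually_ge_atTop N] with n hn
  obtain ⟨⟨p0, p1, p2⟩, p3, p4, p5⟩ := hb.later h hu hn
  obtain ⟨q1, q2, q3⟩ := Q_pos h n
  have e1 := hx.pair hu n
  have e2 := hx.pair (Q_sol a b) n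
  simp only [Q, one_mul] at e2
  rw [← hc] at e1
  rw [← hC] at e2
  have x0p := hx.p0 n
  have x1p := hx.p1 n
  have x2p := hx.p2 n
  have l1 : m * C ≤ c := by
    rw [← e1, ← e2]
    nlinarith [mul_le_mul_of_nonneg_right p0 x0p.le, mul_le_mul_of_nonneg_right p1 x1p,
      mul_le_mul_of_nonneg_right p2 x2p]
  have l2 : c ≤ M * C := by
    rw [← e1, ← e2]
    nlinarith [mul_le_mul_of_nonneg_right p3 x0p.le, mul_le_mul_of_nonneg_right p4 x1p,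
      mul_le_mul_of_nonneg_right p5 x2p]
  have l3 : (M - m) * C ≤ 1 := by rwa [le_div_iff₀ C0] at hmM
  have c1 := le_abs_self c
  have c2 := neg_abs_le c
  have c3 := abs_nonneg c
  set B := (|c| + 1) / C with hB
  have B0 : 0 ≤ B := by positivity
  have BC : B * C = |c| + 1 := div_mul_cancel₀ _ C0.ne'
  have m1 : -B ≤ m := by
    by_contra hcon
    have := mul_lt_mul_of_pos_right (not_le.1 hcon) C0
    nlinarith
  have m2 : M ≤ B := by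
    by_contra hcon
    have := mul_lt_mul_of_pos_right (not_le.1 hcon) C0
    nlinarith
  have l4 : (Q a b n).1 * x0 n ≤ C := by
    nlinarith [mul_nonneg q1.le x1p, mul_nonneg (q1.le.trans q2) x2p]
  have fin : ∀ u q : ℝ, 0 < q → q ≤ (Q a b n).1 → m * q ≤ u → u ≤ M * q →
      |u| * x0 n ≤ |c| + 1 := by
    intro u q hq hq' h1 h2
    have h3 : |u| ≤ B * (Q a b n).1 := by
      have := mul_le_mul_of_nonneg_left hq' B0
      rw [abs_le]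
      constructor <;> nlinarith
    have h4 := mul_le_mul_of_nonneg_right h3 x0p.le
    have h5 := mul_le_mul_of_nonneg_left l4 B0
    nlinarith
  exact ⟨fin _ _ (q1.trans_le (q2.trans q3)) le_rfl p0 p3, fin _ _ q1 (q2.trans q3) p1 p4,
    fin _ _ (q1.trans_le q2) q3 p2 p5⟩

/-- complex form of the main estimate -/
theorem boundC {a b x0 x1 x2 : ℕ → ℝ} {u0 u1 u2 : ℕ → ℂ} (h : Dig a b) (hx : Orb a b x0 x1 x2)
    (hu : Sol (fun n => (a n : ℂ)) (fun n => (b n : ℂ)) u0 u1 u2) : ∀ᶠ n in atTop,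
      ‖u0 n‖ * x0 n ≤ 2 * ‖u0 0 * x0 0 + u1 0 * x1 0 + u2 0 * x2 0‖ + 2 ∧
      ‖u1 n‖ * x0 n ≤ 2 * ‖u0 0 * x0 0 + u1 0 * x1 0 + u2 0 * x2 0‖ + 2 ∧
      ‖u2 n‖ * x0 n ≤ 2 * ‖u0 0 * x0 0 + u1 0 * x1 0 + u2 0 * x2 0‖ + 2 := by
  have hre : Sol a b (fun n => (u0 n).re) (fun n => (u1 n).re) (fun n => (u2 n).re) :=
    ⟨fun n => by simp [hu.e0], fun n => by simp [hu.e1], fun n => by simp [hu.e2]⟩
  have him : Sol a b (fun n => (u0 n).im) (fun n => (u1 n).im) (fun n => (u2 n).im) :=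
    ⟨fun n => by simp [hu.e0], fun n => by simp [hu.e1], fun n => by simp [hu.e2]⟩
  set c := u0 0 * x0 0 + u1 0 * x1 0 + u2 0 * x2 0 with hc
  have e1 : (u0 0).re * x0 0 + (u1 0).re * x1 0 + (u2 0).re * x2 0 = c.re := by simp [hc]
  have e2 : (u0 0).im * x0 0 + (u1 0).im * x1 0 + (u2 0).im * x2 0 = c.im := by simp [hc]
  filter_upwards [bound h hx hre, bound h hx him] with n h1 h2
  simp only [e1] at h1
  simp only [e2] at h2
  have c1 := Complex.abs_re_le_norm c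
  have c2 := Complex.abs_im_le_norm c
  have fin : ∀ u : ℂ, |u.re| * x0 n ≤ |c.re| + 1 → |u.im| * x0 n ≤ |c.im| + 1 →
      ‖u‖ * x0 n ≤ 2 * ‖c‖ + 2 := by
    intro u k1 k2
    have := mul_le_mul_of_nonneg_right (Complex.norm_le_abs_re_add_abs_im u) (hx.p0 n).le
    linarith
  exact ⟨fin _ h1.1 h2.1, fin _ h1.2.1 h2.2.1, fin _ h1.2.2 h2.2.2⟩

end Pool.Agent.P.MP_d07120_nt
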